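import Pool.Agent.Lib.RzV.Nil
import Pool.Agent.Lib.RzG.Full

/-!
The quotients `F/M`.
-/

set_option autoImplicit false

namespace RzV

open RzT (InvMeas Folner)

theorem full {α : Type} (N M : Subgroup (FreeGroup α)) [N.Normal] [M.Normal] (hN : N ≠ ⊥) :
    (∀ (K : Type) [Group K] [Nontrivial K] (W : Set (FreeGroup ℕ)),
      (∀ w ∈ W, ∀ φ : FreeGroup ℕ →* K, φ w = 1) → M ≤ Verb N W →
      ((∃ S : Finset (FreeGroup α ⧸ N),
          Infinite (Subgroup.closure (S : Set (FreeGroup α ⧸ N)))) →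
        ∃ A : Set (FreeGroup α ⧸ M), A.Nonempty ∧
          ¬ ∃ μ : Set (FreeGroup α ⧸ M) → ENNReal, μ A = 1 ∧ InvMeas μ) ∧
      ((∃ w : FreeGroup α, ∀ k : ℕ, 0 < k → w ^ k ∉ N) →
        ∃ f : Fin 2 → FreeGroup α ⧸ M, Function.Injective ⇑(FreeSemigroup.lift f))) ∧
    ((∃ c : ℕ, L N c ≤ M) → (∀ w : FreeGroup α, ∃ k : ℕ, 0 < k ∧ w ^ k ∈ N) →
      ¬ ∃ f : Fin 2 → FreeGroup α ⧸ M, Function.Injective ⇑(FreeSemigroup.lift f)) ∧
    ((∃ i : ℕ, D N i ≤ M) → Folner (FreeGroup α ⧸ N) →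
      ∃ m : Set (FreeGroup α ⧸ M) → ENNReal, m Set.univ = 1 ∧ InvMeas m) ∧
    (M = ⁅N, N⁆ → ∀ (g : FreeGroup α ⧸ M) (k : ℕ), 0 < k → g ^ k = 1 → g = 1) := by
  refine ⟨?_, ?_, ?_, ?_⟩
  · intro K _ _ W hW hM
    obtain ⟨q, hq, hdvd⟩ := laws_dvd W hW
    have hg := good_verb N W q hdvd M hM
    refine ⟨?_, ?_⟩
    · rintro ⟨S, hS⟩
      exact not_supra_lf N M q hq hg hN S hS
    · rintro ⟨w, hw⟩
      exact free_of_not_periodic N M q hq hg hN w hw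
  · rintro ⟨c, hc⟩ hper
    exact no_free_nil N M c hc hper
  · rintro ⟨i, hi⟩ hF
    have := D_normal N i
    exact meas_quot (D N i) M hi (RzT.exists_meas (folner_D N hF i))
  · rintro rfl g k hk hg
    obtain ⟨w, rfl⟩ := QuotientGroup.mk_surjective g
    rw [← QuotientGroup.mk_pow, QuotientGroup.eq_one_iff] at hg
    exact (QuotientGroup.eq_one_iff _).mpr (RzT.torsionfree N w k hk hg)

end RzV
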