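import Pool.Agent.Lib.RzT.Defs

/-!
Verbal subgroups and the two commutator series of a subgroup.
-/

set_option autoImplicit false

namespace RzV

/-- the values in `N` of the words of `W` generate this subgroup -/
def Verb {α : Type} (N : Subgroup (FreeGroup α)) (W : Set (FreeGroup ℕ)) :
    Subgroup (FreeGroup α) :=
  Subgroup.closure {x | ∃ w ∈ W, ∃ ψ : FreeGroup ℕ →* FreeGroup α, (∀ u, ψ u ∈ N) ∧ ψ w = x}

/-- `L N 0 = N`, `L N (c+1) = [L N c, N]` -/
def L {G : Type} [Group G] (N : Subgroup G) : ℕ → Subgroup G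
  | 0 => N
  | c + 1 => ⁅L N c, N⁆

/-- `D N 0 = N`, `D N (i+1) = [D N i, D N i]` -/
def D {G : Type} [Group G] (N : Subgroup G) : ℕ → Subgroup G
  | 0 => N
  | i + 1 => ⁅D N i, D N i⁆

end RzV
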