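import Pool.Agent.Lib.RzV.Wr
import Pool.Agent.Lib.RzV.Defs

/-!
Quotients `F/M` with `M ≤ V(N)`.
-/

set_option autoImplicit false

namespace RzV

open RzG
open RzT (W pr InvMeas exists_ray not_supra pr_const free_of_inj node)

variable {α : Type} (N : Subgroup (FreeGroup α)) [N.Normal]

theorem exists_flow_one (hN : N ≠ ⊥) : ∃ (i0 : α) (r : FreeGroup α)
    (y0 : FreeGroup α ⧸ N), r ∈ N ∧ ((Phi N i0 r).f y0 = 1 ∨ (Phi N i0 r).f y0 = -1) := by
  classical
  obtain ⟨⟨w0, hw0⟩, hne⟩ := Subgroup.ne_bot_iff_exists_ne_one.mp hN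
  have hw01 : w0 ≠ 1 := fun h => hne (Subtype.ext h)
  have hex : ∃ k : ℕ, ∃ w : FreeGroup α, w ∈ N ∧ w ≠ 1 ∧ w.toWord.length = k :=
    ⟨_, w0, hw0, hw01, rfl⟩
  obtain ⟨w, hw, hw1, hlen⟩ := Nat.find_spec hex
  have hmin : ∀ v : FreeGroup α, v ∈ N → v.toWord.length < w.toWord.length → v = 1 := by
    intro v hv hvl
    by_contra hv1
    rw [hlen] at hvl
    exact Nat.find_min hex hvl ⟨v, hv, hv1, rfl⟩
  have hred : FreeGroup.IsReduced w.toWord := FreeGroup.isReduced_toWord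
  have hmk : FreeGroup.mk w.toWord = w := FreeGroup.mk_toWord
  have hnil : w.toWord ≠ [] := fun h => hw1 (FreeGroup.toWord_eq_nil_iff.mp h)
  obtain ⟨a, L', hL⟩ := List.exists_cons_of_ne_nil hnil
  have hpre : ∀ (L1 : List (α × Bool)) (x : α × Bool) (L2 : List (α × Bool)),
      L' = L1 ++ x :: L2 → (QuotientGroup.mk (FreeGroup.mk L1) : FreeGroup α ⧸ N) = 1 →
      L1 = [] := by
    intro L1 x L2 hLL h1
    have hred1 : FreeGroup.IsReduced L1 := by
      have h3 : FreeGroup.IsReduced (a :: (L1 ++ x :: L2)) := by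
        rw [← hLL, ← hL]
        exact hred
      have h4 : FreeGroup.IsReduced (L1 ++ x :: L2) := List.IsChain.tail h3
      exact List.IsChain.left_of_append h4
    have htw : (FreeGroup.mk L1).toWord = L1 := by
      rw [FreeGroup.toWord_mk]; exact hred1.reduce_eq
    have h2 := hmin (FreeGroup.mk L1) ((QuotientGroup.eq_one_iff _).mp h1) (by
      rw [htw, hL, hLL]
      simp)
    rw [h2] at htw
    rw [← htw]
    exact FreeGroup.toWord_one
  have hpre2 : ∀ (L1 : List (α × Bool)) (x : α × Bool) (L2 : List (α × Bool)),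
      L' = L1 ++ x :: L2 →
      (QuotientGroup.mk (FreeGroup.mk (a :: L1)) : FreeGroup α ⧸ N) ≠ 1 := by
    intro L1 x L2 hLL h1
    have hred1 : FreeGroup.IsReduced (a :: L1) := by
      have h3 : FreeGroup.IsReduced ((a :: L1) ++ x :: L2) := by
        rw [List.cons_append, ← hLL, ← hL]
        exact hred
      exact List.IsChain.left_of_append h3
    have htw : (FreeGroup.mk (a :: L1)).toWord = a :: L1 := by
      rw [FreeGroup.toWord_mk]; exact hred1.reduce_eq
    have h2 := hmin (FreeGroup.mk (a :: L1)) ((QuotientGroup.eq_one_iff _).mp h1) (by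
      rw [htw, hL, hLL]
      simp)
    rw [h2, FreeGroup.toWord_one] at htw
    exact List.cons_ne_nil _ _ htw.symm
  have hcons : ∀ L1 : List (α × Bool),
      (QuotientGroup.mk (FreeGroup.mk (a :: L1)) : FreeGroup α ⧸ N) =
        QuotientGroup.mk (FreeGroup.mk [a]) * QuotientGroup.mk (FreeGroup.mk L1) := by
    intro L1
    rw [← QuotientGroup.mk_mul, FreeGroup.mul_mk]
    rfl
  obtain ⟨i, b⟩ := a
  have hw' : FreeGroup.mk ((i, b) :: L') = w := by rw [← hL]; exact hmk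
  cases b
  · refine ⟨i, w, (QuotientGroup.mk (FreeGroup.of i))⁻¹, hw, Or.inr ?_⟩
    rw [← hw', Phi_cons, Phi_false, if_pos ⟨rfl, rfl⟩]
    have h5 : (QuotientGroup.mk (FreeGroup.mk [(i, false)]) : FreeGroup α ⧸ N) =
        (QuotientGroup.mk (FreeGroup.of i))⁻¹ := rfl
    have h2 : (QuotientGroup.mk (FreeGroup.mk [(i, false)]) : FreeGroup α ⧸ N)⁻¹ *
        (QuotientGroup.mk (FreeGroup.of i))⁻¹ = 1 := by
      rw [h5, inv_inv, mul_inv_cancel]
    rw [h2]
    have h6 : (Phi N i (FreeGroup.mk L')).f 1 = 0 := by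
      rcases lt_trichotomy ((Phi N i (FreeGroup.mk L')).f 1) 0 with h | h | h
      · exfalso
        obtain ⟨L1, L2, hLL, hy⟩ := (sign_split N i L' 1).1 h
        apply hpre2 L1 _ L2 hLL
        rw [hcons, h5, mul_eq_one_iff_eq_inv.mp hy, inv_inv, inv_mul_cancel]
      · exact h
      · exfalso
        obtain ⟨L1, L2, hLL, hy⟩ := (sign_split N i L' 1).2 h
        have h3 := hpre L1 _ L2 hLL hy
        rw [h3, List.nil_append] at hLL
        rw [hL, hLL, FreeGroup.isReduced_cons_cons] at hred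
        exact absurd (hred.1 rfl) (by simp)
    rw [h6, add_zero]
  · refine ⟨i, w, 1, hw, Or.inl ?_⟩
    rw [← hw', Phi_cons, Phi_true, if_pos ⟨rfl, rfl⟩, mul_one]
    have h2 : (QuotientGroup.mk (FreeGroup.mk [(i, true)]) : FreeGroup α ⧸ N) =
        QuotientGroup.mk (FreeGroup.of i) := rfl
    rw [h2]
    have h6 : (Phi N i (FreeGroup.mk L')).f (QuotientGroup.mk (FreeGroup.of i))⁻¹ = 0 := by
      rcases lt_trichotomy ((Phi N i (FreeGroup.mk L')).f
        (QuotientGroup.mk (FreeGroup.of i))⁻¹) 0 with h | h | h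
      · exfalso
        obtain ⟨L1, L2, hLL, hy⟩ := (sign_split N i L' _).1 h
        have h3 := hpre L1 _ L2 hLL (by simpa using hy)
        rw [h3, List.nil_append] at hLL
        rw [hL, hLL, FreeGroup.isReduced_cons_cons] at hred
        exact absurd (hred.1 rfl) (by simp)
      · exact h
      · exfalso
        obtain ⟨L1, L2, hLL, hy⟩ := (sign_split N i L' _).2 h
        apply hpre2 L1 _ L2 hLL
        rw [hcons, h2, hy, mul_inv_cancel]
    rw [h6, add_zero]

/-- the composite of `Phi` with reduction mod `q` is trivial on `M` -/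
def Good {α : Type} (N : Subgroup (FreeGroup α)) [N.Normal] (M : Subgroup (FreeGroup α))
    (q : ℕ) : Prop :=
  ∀ (i0 : α) (w : FreeGroup α), w ∈ M →
    ((V.red (Int.castAddHom (ZMod q))).comp (Phi N i0)) w = 1

theorem laws_dvd {K : Type} [Group K] [Nontrivial K] (W : Set (FreeGroup ℕ))
    (hW : ∀ w ∈ W, ∀ φ : FreeGroup ℕ →* K, φ w = 1) :
    ∃ q : ℕ, 1 < q ∧ ∀ w ∈ W, ∀ θ : FreeGroup ℕ →* Multiplicative ℤ,
      (q : ℤ) ∣ Multiplicative.toAdd (θ w) := by
  obtain ⟨k, hk⟩ := exists_ne (1 : K)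
  have h1 : ∀ w ∈ W, ∀ θ : FreeGroup ℕ →* Multiplicative ℤ,
      ((orderOf k : ℕ) : ℤ) ∣ Multiplicative.toAdd (θ w) := by
    intro w hw θ
    rw [orderOf_dvd_iff_zpow_eq_one]
    exact hW w hw ((zpowersHom K k).comp θ)
  by_cases h0 : orderOf k = 0
  · refine ⟨2, one_lt_two, ?_⟩
    intro w hw θ
    have h2 := h1 w hw θ
    rw [h0] at h2
    rw [Nat.cast_zero, zero_dvd_iff] at h2
    rw [h2]
    exact dvd_zero _
  · refine ⟨orderOf k, ?_, h1⟩
    have h2 : orderOf k ≠ 1 := fun h => hk (orderOf_eq_one_iff.mp h)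
    omega

theorem good_verb (W : Set (FreeGroup ℕ)) (q : ℕ)
    (hq : ∀ w ∈ W, ∀ θ : FreeGroup ℕ →* Multiplicative ℤ, (q : ℤ) ∣ Multiplicative.toAdd (θ w))
    (M : Subgroup (FreeGroup α)) (hM : M ≤ Verb N W) : Good N M q := by
  intro i0 w hw
  have h : Verb N W ≤ ((V.red (Int.castAddHom (ZMod q))).comp (Phi N i0)).ker := by
    rw [Verb, Subgroup.closure_le]
    rintro _ ⟨w, hw, ψ, hψ, rfl⟩
    have hh : ∀ u, (Phi N i0 (ψ u)).h = 1 := by
      intro u
      rw [Phi_h]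
      exact (QuotientGroup.eq_one_iff _).mpr (hψ u)
    show ((V.red (Int.castAddHom (ZMod q))).comp (Phi N i0)) (ψ w) = 1
    rw [MonoidHom.comp_apply]
    ext y
    · show (Int.castAddHom (ZMod q)) ((Phi N i0 (ψ w)).f y) = 0
      let θ : FreeGroup ℕ →* Multiplicative ℤ :=
        { toFun := fun u => Multiplicative.ofAdd ((Phi N i0 (ψ u)).f y)
          map_one' := by
            rw [map_one, map_one, RzT.W.one_f]
            rfl
          map_mul' := by
            intro a b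
            rw [map_mul, map_mul, RzT.W.mul_f, hh a, inv_one, one_mul]
            rfl }
      have h2 : (q : ℤ) ∣ (Phi N i0 (ψ w)).f y := hq w hw θ
      exact (ZMod.intCast_zmod_eq_zero_iff_dvd _ _).mpr h2
    · exact hh w
  exact h (hM hw)

variable (M : Subgroup (FreeGroup α)) [M.Normal] (q : ℕ)

/-- the induced map -/
noncomputable def Psi (hM : Good N M q) (i0 : α) :
    FreeGroup α ⧸ M →* V (ZMod q) (FreeGroup α ⧸ N) :=
  QuotientGroup.lift M ((V.red (Int.castAddHom (ZMod q))).comp (Phi N i0)) (hM i0)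

theorem Psi_h (hM : Good N M q) (i0 : α) (w : FreeGroup α) :
    (Psi N M q hM i0 (QuotientGroup.mk w)).h = QuotientGroup.mk w := Phi_h N i0 w

theorem Psi_f (hM : Good N M q) (i0 : α) (w : FreeGroup α) (y : FreeGroup α ⧸ N) :
    (Psi N M q hM i0 (QuotientGroup.mk w)).f y = (((Phi N i0 w).f y : ℤ) : ZMod q) := rfl

theorem exists_D (hq : 1 < q) (hM : Good N M q) (hN : N ≠ ⊥) : ∃ (i0 : α) (c : FreeGroup α ⧸ M)
    (D : Set (FreeGroup α ⧸ N)), D.Finite ∧
    ∀ t : ℕ → FreeGroup α ⧸ M,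
      (∀ i j : ℕ, i < j → (pr (fun k => (Psi N M q hM i0 (t k)).h) i)⁻¹ *
        pr (fun k => (Psi N M q hM i0 (t k)).h) j ∉ D) → Function.Injective (node t c) := by
  obtain ⟨i0, r, y0, hr, hy0⟩ := exists_flow_one N hN
  have hS := flow_finite N i0 r
  refine ⟨i0, QuotientGroup.mk r,
    ((fun y => y * y0⁻¹) '' {y | (Phi N i0 r).f y ≠ 0}) ∪
      ((fun y => (y * y0⁻¹)⁻¹) '' {y | (Phi N i0 r).f y ≠ 0}),
    (hS.image _).union (hS.image _), ?_⟩
  intro t ht
  apply node_inj' (Psi N M q hM i0) t (QuotientGroup.mk r) y0 _ _ _ _ ht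
  · rw [Psi_h]
    exact (QuotientGroup.eq_one_iff _).mpr hr
  · rw [Psi_f]
    have : Fact (1 < q) := ⟨hq⟩
    rcases hy0 with h | h <;> rw [h] <;> simp
  · intro y hy
    rw [Psi_f] at hy
    have hy' : (Phi N i0 r).f y ≠ 0 := by
      intro h0
      rw [h0] at hy
      simp at hy
    exact ⟨Or.inl ⟨y, hy', rfl⟩, Or.inr ⟨y, hy', rfl⟩⟩

theorem not_supra_lf (hq : 1 < q) (hM : Good N M q) (hN : N ≠ ⊥) (S : Finset (FreeGroup α ⧸ N))
    (hS : Infinite (Subgroup.closure (S : Set (FreeGroup α ⧸ N)))) :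
    ∃ A : Set (FreeGroup α ⧸ M), A.Nonempty ∧
      ¬ ∃ μ : Set (FreeGroup α ⧸ M) → ENNReal, μ A = 1 ∧ InvMeas μ := by
  classical
  obtain ⟨i0, c, D, hDfin, hinj⟩ := exists_D N M q hq hM hN
  let H0 : Subgroup (FreeGroup α ⧸ N) := Subgroup.closure (S : Set (FreeGroup α ⧸ N))
  have hD0 : ((fun x : H0 => (x : FreeGroup α ⧸ N)) ⁻¹' D).Finite :=
    hDfin.preimage Subtype.val_injective.injOn
  obtain ⟨T, t, hT, hD⟩ := exists_ray (H := H0)
    (S.preimage Subtype.val Subtype.val_injective.injOn)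
    (by
      rw [Finset.coe_preimage]
      exact Subgroup.closure_closure_coe_preimage)
    hD0.toFinset
  let σ : FreeGroup α ⧸ N → FreeGroup α ⧸ M := fun y => QuotientGroup.mk y.out
  have hσ : ∀ y, (Psi N M q hM i0 (σ y)).h = y := by
    intro y
    rw [Psi_h]
    exact QuotientGroup.out_eq' y
  have hpr : (fun k => (Psi N M q hM i0 (σ (t k : FreeGroup α ⧸ N))).h) = fun k => H0.subtype (t k) := by
    funext k
    exact hσ _
  refine not_supra (T.image fun x : H0 => σ (x : FreeGroup α ⧸ N))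
    (fun k => σ (t k : FreeGroup α ⧸ N))
    (fun k => Finset.mem_image_of_mem (fun x : H0 => σ (x : FreeGroup α ⧸ N)) (hT k)) c ?_
  apply hinj
  intro i j hij
  rw [hpr, pr_map, pr_map, ← map_inv, ← map_mul]
  have := hD i j hij
  rwa [Set.Finite.mem_toFinset] at this

theorem free_of_not_periodic (hq : 1 < q) (hM : Good N M q) (hN : N ≠ ⊥) (w : FreeGroup α)
    (hw : ∀ k : ℕ, 0 < k → w ^ k ∉ N) :
    ∃ f : Fin 2 → FreeGroup α ⧸ M, Function.Injective ⇑(FreeSemigroup.lift f) := by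
  obtain ⟨i0, c, D, hDfin, hinj⟩ := exists_D N M q hq hM hN
  let h : FreeGroup α ⧸ N := QuotientGroup.mk w
  have hord : ¬ IsOfFinOrder h := by
    rw [isOfFinOrder_iff_pow_eq_one]
    rintro ⟨k, hk, hk1⟩
    apply hw k hk
    rw [← QuotientGroup.eq_one_iff, QuotientGroup.mk_pow]
    exact hk1
  have hpinj : Function.Injective fun k : ℕ => h ^ k := injective_pow_iff_not_isOfFinOrder.mpr hord
  have hfin : {k : ℕ | h ^ k ∈ D}.Finite := hDfin.preimage (hpinj.injOn)
  obtain ⟨L0, hL0⟩ := hfin.bddAbove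
  have hL : ∀ m : ℕ, 0 < m → h ^ ((L0 + 1) * m) ∉ D := by
    intro m hm hmem
    have h1 : (L0 + 1) * m ≤ L0 := hL0 hmem
    have h2 : L0 + 1 ≤ (L0 + 1) * m := Nat.le_mul_of_pos_right _ hm
    omega
  apply free_of_inj (QuotientGroup.mk (w ^ (L0 + 1))) c
  apply hinj
  intro i j hij
  have hh : (Psi N M q hM i0 (QuotientGroup.mk (w ^ (L0 + 1)))).h = h ^ (L0 + 1) := by
    rw [Psi_h, QuotientGroup.mk_pow]
  rw [hh, pr_const, pr_const]
  have h3 : ((h ^ (L0 + 1)) ^ i)⁻¹ * (h ^ (L0 + 1)) ^ j = h ^ ((L0 + 1) * (j - i)) := by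
    obtain ⟨m, rfl⟩ := Nat.exists_eq_add_of_lt hij
    have : i + m + 1 - i = m + 1 := by omega
    rw [this, pow_mul, show i + m + 1 = i + (m + 1) by omega,
      pow_add (h ^ (L0 + 1)) i (m + 1), inv_mul_cancel_left]
  rw [h3]
  exact hL (j - i) (by omega)

end RzV
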