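import Pool.Agent.Lib.RzV.Main

/-!
Quotients `F/M` where `M` contains a term of the lower central (derived) series of `N`.
-/

set_option autoImplicit false

namespace RzV

open RzT (InvMeas Folner ext_folner exists_meas)
open scoped commutatorElement

theorem D_normal {G : Type} [Group G] (N : Subgroup G) [hN : N.Normal] (i : ℕ) :
    (D N i).Normal := by
  induction i with
  | zero => exact hN
  | succ i ih => exact Subgroup.commutator_normal _ _

theorem D_le {G : Type} [Group G] (N : Subgroup G) [N.Normal] (i : ℕ) : D N i ≤ N := by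
  induction i with
  | zero => exact le_refl _
  | succ i ih =>
    exact (Subgroup.commutator_le_self _).trans ih

theorem D_le_L {G : Type} [Group G] (N : Subgroup G) [N.Normal] (i : ℕ) : D N i ≤ L N i := by
  induction i with
  | zero => exact le_refl _
  | succ i ih => exact Subgroup.commutator_mono ih (D_le N i)

theorem folner_step {G : Type} [Group G] (N : Subgroup G) [N.Normal] (hF : Folner (G ⧸ N)) :
    Folner (G ⧸ ⁅N, N⁆) := by
  have hle : ⁅N, N⁆ ≤ N := Subgroup.commutator_le_self N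
  let π : G ⧸ ⁅N, N⁆ →* G ⧸ N :=
    QuotientGroup.lift ⁅N, N⁆ (QuotientGroup.mk' N)
      (fun w hw => (QuotientGroup.eq_one_iff w).mpr (hle hw))
  apply ext_folner π
  · intro y
    obtain ⟨w, rfl⟩ := QuotientGroup.mk_surjective y
    exact ⟨QuotientGroup.mk w, rfl⟩
  · intro a ha b hb
    obtain ⟨a, rfl⟩ := QuotientGroup.mk_surjective a
    obtain ⟨b, rfl⟩ := QuotientGroup.mk_surjective b
    have ha' : (QuotientGroup.mk a : G ⧸ N) = 1 := ha
    have hb' : (QuotientGroup.mk b : G ⧸ N) = 1 := hb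
    rw [QuotientGroup.eq_one_iff] at ha' hb'
    rw [← QuotientGroup.mk_mul, ← QuotientGroup.mk_mul, eq_comm, QuotientGroup.eq]

    have h2 : ⁅a⁻¹, b⁻¹⁆ = (b * a)⁻¹ * (a * b) := by
      rw [commutatorElement_def, inv_inv, inv_inv, mul_inv_rev, mul_assoc]
    have h3 := Subgroup.commutator_mem_commutator (N.inv_mem ha') (N.inv_mem hb')
    rw [h2] at h3
    exact h3
  · exact hF

theorem folner_D {G : Type} [Group G] (N : Subgroup G) [hN : N.Normal] (hF : Folner (G ⧸ N))
    (i : ℕ) : have := D_normal N i; Folner (G ⧸ D N i) := by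
  induction i with
  | zero => exact hF
  | succ i ih =>
    have := D_normal N i
    exact folner_step (D N i) ih

theorem meas_quot {G : Type} [Group G] (D M : Subgroup G) [D.Normal] [M.Normal] (h : D ≤ M)
    (hm : ∃ m : Set (G ⧸ D) → ENNReal, m Set.univ = 1 ∧ InvMeas m) :
    ∃ m : Set (G ⧸ M) → ENNReal, m Set.univ = 1 ∧ InvMeas m := by
  obtain ⟨m, h1, h2, h3⟩ := hm
  let π : G ⧸ D →* G ⧸ M :=
    QuotientGroup.lift D (QuotientGroup.mk' M)
      (fun w hw => (QuotientGroup.eq_one_iff w).mpr (h hw))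
  refine ⟨fun B => m (π ⁻¹' B), ?_, ?_, ?_⟩
  · show m (π ⁻¹' Set.univ) = 1
    rw [Set.preimage_univ, h1]
  · intro B C hBC
    show m (π ⁻¹' (B ∪ C)) = m (π ⁻¹' B) + m (π ⁻¹' C)
    rw [Set.preimage_union, h2 _ _ (hBC.preimage π)]
  · intro g B
    obtain ⟨w, rfl⟩ := QuotientGroup.mk_surjective g
    show m (π ⁻¹' ((fun x => (QuotientGroup.mk w : G ⧸ M) * x) '' B)) = m (π ⁻¹' B)
    rw [← h3 (QuotientGroup.mk w) (π ⁻¹' B)]
    congr 1
    have hπ : π (QuotientGroup.mk w) = QuotientGroup.mk w := rfl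
    ext x
    constructor
    · rintro ⟨y, hy, hyx⟩
      refine ⟨(QuotientGroup.mk w)⁻¹ * x, ?_, mul_inv_cancel_left _ _⟩
      show π ((QuotientGroup.mk w)⁻¹ * x) ∈ B
      rw [map_mul, map_inv, hπ, ← hyx]
      show (QuotientGroup.mk w)⁻¹ * ((QuotientGroup.mk w) * y) ∈ B
      rw [inv_mul_cancel_left]
      exact hy
    · rintro ⟨y, hy, rfl⟩
      refine ⟨π y, hy, ?_⟩
      show (QuotientGroup.mk w : G ⧸ M) * π y = π ((QuotientGroup.mk w) * y)
      rw [map_mul, hπ]

/-- words `X`, `Y` with `X 0 = 0^(p+1)`, `Y 0 = 1^(q+1)`, `X (n+1) = X n * Y n`,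
`Y (n+1) = Y n * X n` -/
def XY (p q : ℕ) : ℕ → FreeSemigroup (Fin 2) × FreeSemigroup (Fin 2)
  | 0 => (⟨0, List.replicate p 0⟩, ⟨1, List.replicate q 1⟩)
  | n + 1 => ((XY p q n).1 * (XY p q n).2, (XY p q n).2 * (XY p q n).1)

theorem XY_head (p q n : ℕ) : (XY p q n).1.head = 0 ∧ (XY p q n).2.head = 1 := by
  induction n with
  | zero => exact ⟨rfl, rfl⟩
  | succ n ih => exact ih

theorem XY_val {G : Type} [Group G] (N : Subgroup G) [N.Normal] (f : Fin 2 → G) (p q : ℕ)
    (hp : f 0 ^ (p + 1) ∈ N) (hq : f 1 ^ (q + 1) ∈ N) (n : ℕ) :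
    FreeSemigroup.lift f (XY p q n).1 ∈ N ∧ FreeSemigroup.lift f (XY p q n).2 ∈ N ∧
    FreeSemigroup.lift f (XY p q n).1 * (FreeSemigroup.lift f (XY p q n).2)⁻¹ ∈ L N n := by
  induction n with
  | zero =>
    have h1 : FreeSemigroup.lift f (XY p q 0).1 = f 0 ^ (p + 1) := by
      change (List.replicate p (0 : Fin 2)).foldl (fun a b => a * f b) (f 0) = _
      rw [RzT.foldl_mul, List.map_replicate, List.prod_replicate, ← pow_succ']
    have h2 : FreeSemigroup.lift f (XY p q 0).2 = f 1 ^ (q + 1) := by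
      change (List.replicate q (1 : Fin 2)).foldl (fun a b => a * f b) (f 1) = _
      rw [RzT.foldl_mul, List.map_replicate, List.prod_replicate, ← pow_succ']
    rw [h1, h2]
    exact ⟨hp, hq, N.mul_mem hp (N.inv_mem hq)⟩
  | succ n ih =>
    obtain ⟨h1, h2, h3⟩ := ih
    have e1 : FreeSemigroup.lift f (XY p q (n + 1)).1 =
      FreeSemigroup.lift f (XY p q n).1 * FreeSemigroup.lift f (XY p q n).2 := map_mul _ _ _
    have e2 : FreeSemigroup.lift f (XY p q (n + 1)).2 =
      FreeSemigroup.lift f (XY p q n).2 * FreeSemigroup.lift f (XY p q n).1 := map_mul _ _ _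
    rw [e1, e2]
    refine ⟨N.mul_mem h1 h2, N.mul_mem h2 h1, ?_⟩
    generalize FreeSemigroup.lift f (XY p q n).1 = x at *
    generalize FreeSemigroup.lift f (XY p q n).2 = y at *
    have h4 : ⁅x * y⁻¹, y⁆ ∈ L N (n + 1) := Subgroup.commutator_mem_commutator h3 h2
    have h5 : x * y * (y * x)⁻¹ = ⁅x * y⁻¹, y⁆ := by
      rw [commutatorElement_def]
      group
    rw [h5]
    exact h4

theorem no_free_nil {G : Type} [Group G] (N M : Subgroup G) [N.Normal] [M.Normal] (c : ℕ)
    (hM : L N c ≤ M) (hper : ∀ w : G, ∃ k : ℕ, 0 < k ∧ w ^ k ∈ N) :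
    ¬ ∃ f : Fin 2 → G ⧸ M, Function.Injective ⇑(FreeSemigroup.lift f) := by
  rintro ⟨f, hf⟩
  let F : Fin 2 → G := fun i => (f i).out
  have hF : ∀ i, (QuotientGroup.mk (F i) : G ⧸ M) = f i := fun i => QuotientGroup.out_eq' _
  obtain ⟨p, hp, hpN⟩ := hper (F 0)
  obtain ⟨q, hq, hqN⟩ := hper (F 1)
  obtain ⟨p, rfl⟩ := Nat.exists_eq_succ_of_ne_zero hp.ne'
  obtain ⟨q, rfl⟩ := Nat.exists_eq_succ_of_ne_zero hq.ne'
  obtain ⟨-, -, h3⟩ := XY_val N F p q hpN hqN c
  have hlift : ∀ u : FreeSemigroup (Fin 2),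
      (QuotientGroup.mk (FreeSemigroup.lift F u) : G ⧸ M) = FreeSemigroup.lift f u := by
    intro u
    have h : ((QuotientGroup.mk' M : G →ₙ* G ⧸ M).comp (FreeSemigroup.lift F)) =
        FreeSemigroup.lift f := by
      apply FreeSemigroup.hom_ext
      funext i
      show (QuotientGroup.mk (FreeSemigroup.lift F (FreeSemigroup.of i)) : G ⧸ M) =
        FreeSemigroup.lift f (FreeSemigroup.of i)
      rw [FreeSemigroup.lift_of, FreeSemigroup.lift_of, hF]
    exact DFunLike.congr_fun h u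
  have h4 : (XY p q c).1 = (XY p q c).2 := by
    apply hf
    rw [← hlift, ← hlift]
    have h5 := hM h3
    rw [← QuotientGroup.eq_one_iff, QuotientGroup.mk_mul, QuotientGroup.mk_inv,
      mul_inv_eq_one] at h5
    exact h5
  have h6 := XY_head p q c
  rw [h4] at h6
  exact absurd (h6.1.symm.trans h6.2) (by decide)

end RzV
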