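import Pool.Agent.Lib.RzG.Full

/-!
Flows with coefficients in an abelian group.
-/

set_option autoImplicit false

namespace RzV

open RzT

/-- the unrestricted wreath product of the abelian group `A` by `H` -/
@[ext] structure V (A H : Type) where
  /-- the function part -/
  f : H → A
  /-- the top part -/
  h : H

namespace V

variable {A H : Type} [AddCommGroup A] [Group H]

instance : Mul (V A H) := ⟨fun a b => ⟨fun y => a.f y + b.f (a.h⁻¹ * y), a.h * b.h⟩⟩
instance : One (V A H) := ⟨⟨fun _ => 0, 1⟩⟩
instance : Inv (V A H) := ⟨fun a => ⟨fun y => - a.f (a.h * y), a.h⁻¹⟩⟩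

theorem mul_f (a b : V A H) (y : H) : (a * b).f y = a.f y + b.f (a.h⁻¹ * y) := rfl
theorem mul_h (a b : V A H) : (a * b).h = a.h * b.h := rfl
theorem one_f (y : H) : (1 : V A H).f y = 0 := rfl
theorem one_h : (1 : V A H).h = 1 := rfl
theorem inv_f (a : V A H) (y : H) : (a⁻¹).f y = - a.f (a.h * y) := rfl
theorem inv_h (a : V A H) : (a⁻¹).h = a.h⁻¹ := rfl

instance : Group (V A H) := Group.ofLeftAxioms
  (by
    intro a b c
    ext y
    · simp only [mul_f, mul_h, mul_inv_rev, mul_assoc, add_assoc]
    · simp only [mul_h, mul_assoc])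
  (by
    intro a
    ext y
    · simp [mul_f, one_f, one_h]
    · simp [mul_h, one_h])
  (by
    intro a
    ext y
    · simp [mul_f, one_f, inv_f, inv_h]
    · simp [mul_h, one_h, inv_h])

/-- change of coefficients -/
def red (φ : ℤ →+ A) : W H →* V A H where
  toFun := fun a => ⟨fun y => φ (a.f y), a.h⟩
  map_one' := by
    ext y
    · show φ 0 = 0
      exact map_zero φ
    · rfl
  map_mul' := by
    intro a b
    ext y
    · show φ (a.f y + b.f (a.h⁻¹ * y)) = φ (a.f y) + φ (b.f (a.h⁻¹ * y))
      exact map_add φ _ _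
    · rfl

theorem pow_f {a : W H} (ha : a.h = 1) (m : ℕ) : (a ^ m).h = 1 ∧ ∀ y, (a ^ m).f y = m * a.f y := by
  induction m with
  | zero => simp [W.one_f, W.one_h]
  | succ m ih =>
    refine ⟨by rw [pow_succ', W.mul_h, ha, ih.1, one_mul], fun y => ?_⟩
    rw [pow_succ', W.mul_f, ha, inv_one, one_mul, ih.2]
    push_cast
    ring

end V

variable {A G H : Type} [AddCommGroup A] [Group G] [Group H]

theorem node_h (Ψ : G →* V A H) (t : ℕ → G) (c : G) (hc : (Ψ c).h = 1) (l : List Bool) :
    (Ψ (node t c l)).h = pr (fun n => (Ψ (t n)).h) l.length := by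
  induction l with
  | nil => simp [node, pr, V.one_h]
  | cons b l ih =>
    have hb : (Ψ (if b then c else 1)).h = 1 := by
      cases b <;> simp [hc, V.one_h]
    simp only [node, map_mul, V.mul_h, ih, hb, mul_one, List.length_cons, pr]

theorem node_inj' (Ψ : G →* V A H) (t : ℕ → G) (c : G) (y0 : H) (D : Set H) (hc : (Ψ c).h = 1)
    (hc1 : (Ψ c).f y0 ≠ 0)
    (hcD : ∀ y, (Ψ c).f y ≠ 0 → y * y0⁻¹ ∈ D ∧ (y * y0⁻¹)⁻¹ ∈ D)
    (hD : ∀ i j : ℕ, i < j → (pr (fun n => (Ψ (t n)).h) i)⁻¹ * pr (fun n => (Ψ (t n)).h) j ∉ D) :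
    Function.Injective (node t c) := by
  set P := pr (fun n => (Ψ (t n)).h) with hP
  have hD' : ∀ i j : ℕ, i ≠ j → (Ψ c).f ((P i)⁻¹ * (P j * y0)) = 0 := by
    intro i j hij
    by_contra hne
    have h1 := hcD _ hne
    have h2 : (P i)⁻¹ * (P j * y0) * y0⁻¹ = (P i)⁻¹ * P j := by
      rw [mul_assoc, mul_assoc, mul_inv_cancel, mul_one]
    rw [h2] at h1
    rcases lt_or_gt_of_ne hij with h | h
    · exact hD i j h h1.1
    · apply hD j i h
      have := h1.2
      rwa [mul_inv_rev, inv_inv] at this
  have hPinj : Function.Injective P := by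
    intro i j hij
    by_contra hne
    have h1 := hD' i j hne
    rw [hij, inv_mul_cancel_left] at h1
    exact hc1 h1
  have step : ∀ (b : Bool) (l : List Bool) (y : H), (Ψ (node t c (b :: l))).f y =
      (Ψ (node t c l)).f y + (Ψ (t l.length)).f ((P l.length)⁻¹ * y) +
        (if b then (Ψ c).f ((P (l.length + 1))⁻¹ * y) else 0) := by
    intro b l y
    have h1 : (Ψ (node t c l)).h = P l.length := node_h Ψ t c hc l
    have h2 : (Ψ (node t c l * t l.length)).h = P (l.length + 1) := by
      rw [map_mul, V.mul_h, h1, hP, pr]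
    rw [node, map_mul, V.mul_f, h2, map_mul, V.mul_f, h1]
    cases b
    · simp [V.one_f]
    · simp
  have key : ∀ (l l' : List Bool), l.length = l'.length →
      (∀ j < l.length, (Ψ (node t c l)).f (P (j + 1) * y0) =
        (Ψ (node t c l')).f (P (j + 1) * y0)) → l = l' := by
    intro l
    induction l with
    | nil =>
      intro l' hl _
      have : l'.length = 0 := by simpa using hl.symm
      exact (List.length_eq_zero_iff.mp this).symm
    | cons b l ih =>
      intro l' hl hf
      cases l' with
      | nil => simp at hl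
      | cons b' l' =>
        have hl2 : l.length = l'.length := by simpa using hl
        have h1 : l = l' := by
          apply ih l' hl2
          intro j hj
          have h2 := hf j (by simp; omega)
          rw [step, step, ← hl2] at h2
          have h3 : (Ψ c).f ((P (l.length + 1))⁻¹ * (P (j + 1) * y0)) = 0 :=
            hD' _ _ (by omega)
          simp only [h3, ite_self, add_zero] at h2
          exact add_right_cancel h2
        subst h1
        have h2 := hf l.length (by simp)
        rw [step, step] at h2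
        have h3 := add_left_cancel h2
        rw [inv_mul_cancel_left] at h3
        cases b <;> cases b' <;> simp_all
  intro l l' hll
  have hlen : l.length = l'.length := by
    apply hPinj
    rw [hP, ← node_h Ψ t c hc l, ← node_h Ψ t c hc l', hll]
  exact key l l' hlen (fun j _ => by rw [hll])

end RzV
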